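import Pool.Agent.T2H38.HK.Main

/-!
# The noncommutative Tate conjecture for products with varieties built from pieces of K3 type

We consider smooth projective varieties over an algebraic closure of a finite field of characteristic
`p`, a Weil cohomology theory `W` (for instance `ℓ`-adic cohomology, with algebraically closed
coefficient field) and the Frobenius endomorphisms (`FrobSystem`; each `X` is defined over a finite
field). `TateIn Φ X c` is the Tate conjecture for `X` in codimension `c`, over all finite fields of
definition.

**Pieces of K3 type.** Let `E` be a CM field and `α ∈ E` a number with all complex absolute values
one. A class in `H^{2b}(X)` is a twist (`IsTwist`) if it is an eigenvector of a power of Frobenius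
with an eigenvalue that is, up to a root of unity, the corresponding power of `q^b` times an
`e`-th root of a conjugate of `α`. The variety `Z` is *built* from `n` copies of this piece of `X`
(`IsBuilt`) if its cohomology is spanned by products of at most `n` images of such classes under
algebraic correspondences from `X` to `Z`, and of classes of cycles; moreover we assume the Tate
conjecture in codimension `2b` for `X × X`. For instance `X` is a K3 surface of finite height (here the
Tate conjecture for `X × X` is a theorem of Ito, Ito and Koshikawa) and
`Z = X` (`n = 1`), `Z = X^n`, `Z` the Hilbert scheme `X^[n]` or a moduli space of sheaves of dimension `2 n`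
on `X`; or `X` is a cubic fourfold (`b = 2`) and `Z` its Fano variety of lines (`n = 2`), and products of
such varieties (the numbers `n` add up).

**Free numbers.** For K3 surfaces and for varieties with second cohomology of K3 type `α` is a number
of K3 type (`IsK3Frobenius`): its powers generate `E`, and only one place of `E` above `p` has positive
slope, of local degree `m` (the height, divided by the multiplicity); `[E : ℚ] = 2 d`. The number `α` is
*free* (`IsFree`) if

* `m` is odd, `d ≤ 11`, and `(d, m)` is not one of `(6, 3), (9, 3), (10, 3), (10, 5)`; or
* `m ≤ 2` or `d` is a prime number, and no norm of `α` to a proper CM subfield is a root of unity; or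
* some conjugate of `α` is not a `p`-adic unit and the *signs of `E` are separated*
  (`HasSeparatedSigns`): for all embeddings `σ`, `τ ≠ σ, conj σ` some automorphism maps each embedding
  to itself or to its conjugate, fixes `σ` and conjugates `τ`. Here the slopes are arbitrary.

It is *almost free* for `n` copies (`IsAlmostFree`) if `n ≤ 3` and `(d, m)` is not one of nine pairs
(`exceptionalPairs`), or `d` is a prime number greater than `n`, `d ≤ 11`.

**Towers.** Let `U` be **any** smooth projective variety, and `𝓤` a set of fields which determine the
slopes of `U` (`HasSlopes`: the Frobenius eigenvalues are, up to powers, products of numbers whose
`p`-adic absolute values are not changed by the automorphisms over a field in `𝓤`). A tower `Y` over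
`U` (`IsTower`) is obtained by successive products with varieties `Z` as above; at each step
(`StepCondition`) `α` is free and all fields `L` that occurred before (those in `𝓤` and the Galois
closures of the fields `E` of the previous steps) are Galois with totally real intersections with `E`,
except for one of them, `L₀`, with `[E : L₀ ∩ E] > n`; or `α` is almost free and some automorphism is
the identity on all fields that occurred before and the complex conjugation on all conjugates of `E`.

**Theorem.** (1) Let `Y` be a tower over `U`. Then the noncommutative Tate conjecture holds for
`perf_dg(Y)` **if and only if** it holds for `perf_dg(U)`. (Nothing is assumed about the Tate conjecture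
for `U`.)

(2) Let `𝒟` be the smallest class of dg categories that contains `perf_dg(Y)` for all towers `Y` over
varieties `U` for which the Tate conjecture is known (for example a point, varieties with algebraic
cohomology, abelian varieties of dimension at most five, products of curves with these Jacobians), and
all dg categories whose noncommutative motives with rational coefficients are direct summands of
finite sums of motives of members of `𝒟` (`NCGenerated`). Then the noncommutative Tate conjecture holds
for all `A` in `𝒟`.

For instance it holds for `perf_dg(Y)` and for all components of semiorthogonal decompositions of
`perf_dg(Y)`, for `Y = X_1^{n_1} × ⋯ × X_r^{n_r}` a product of powers of K3 surfaces of odd heights (not the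
four exceptions) whose fields `E_i` have totally real intersections with the Galois closures of each
other; for all tensor powers and tensor products of the Kuznetsov components of cubic fourfolds of this
kind (they are noncommutative K3 surfaces); for the categories of twisted sheaves on Hilbert schemes of
such K3 surfaces; for all of these times any variety, or dg category, for which it is known and which is
independent; and for the cubes of K3 surfaces, apart from the nine pairs.

Here `P A n` is the group `π_{-1} (L_KU K (A ⊗ 𝔽_{q^n}))`, `NCTate` says that there are no nonzero
homomorphisms from the Prüfer group to these groups, and `IsPerfCat` is the theorem of Thomason that for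
`A = perf_dg(X)` this is equivalent to the Tate conjecture for `X` in all codimensions.

The starting files contain the Tate conjecture for powers of one K3 surface of odd height and their
products with one independent variety; the theorem on the products with varieties with many slope
fields (`tateTimesP_many`) is in the starting files too. New are the noncommutative form with the
equivalence, the theorem that the slopes of a built variety are determined by the Galois closure of `E`
(`hasSlopes_built`), hence the towers with different fields, the comparison of many fields with their
compositum (`inL_of_inM`), and the absence of relations for separated signs (`noRel_separated`).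
-/

set_option autoImplicit false

open CategoryTheory AlgebraicGeometry NumberField

universe u v

namespace Pool.Agent.Results.MP_de89cc_ag.HyperkaehlerTowers

open Pool.Agent.H914 Pool.Agent.W534 Pool.Agent.Y103.Hk Pool.Agent.R900.PT Pool.Agent.T2H38.HK
  VarClass Obj WeilCohomology

/-- **The noncommutative Tate conjecture for towers of products with varieties built from pieces of K3
type.** -/
theorem result {k : Type u} [Field k] {𝒱 : VarClass k} {ops : CycleOps 𝒱}
    (W : WeilCohomology.{u, v} ops) [IsAlgClosed W.K] (p : ℕ) [Fact p.Prime]
    (Φ : FrobSystem W p) (ι : AlgebraicClosure ℚ →+* PadicAlgCl p) (l : ℕ) [Fact l.Prime]
    (D : Type) (P : D → ℕ → Type) [∀ A n, AddCommGroup (P A n)] :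
    (∀ (U Y : 𝒱.Obj) (𝓤 𝓛 : Set (IntermediateField ℚ (AlgebraicClosure ℚ))),
      HasSlopes Φ ι 𝓤 U → IsTower Φ ι U 𝓤 𝓛 Y →
        ∀ A B : D, IsPerfCat Φ l P Y A → IsPerfCat Φ l P U B →
          (NCTate l (P A) ↔ NCTate l (P B))) ∧
    ∀ A : D, NCGenerated P (IsPerfOfTower Φ ι l P) A → NCTate l (P A) :=
  main l P

end Pool.Agent.Results.MP_de89cc_ag.HyperkaehlerTowers
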