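import Pool.Agent.T2H38.SS.Main
import Pool.Agent.R900.PT.NCTate

/-!
# The noncommutative Tate conjecture for dg categories generated by abelian varieties whose Frobenius
fields have separated signs

An abelian variety over the field with `p ^ a` elements is modelled by `RedAV` (Honda, Tate): a
finite product of CM types `(E i, Φ i)` with Weil numbers `π i ∈ E i` that satisfy the formula of
Shimura and Taniyama; its cohomology of degree `n`, with coefficients in an algebraically closed field
`Ω`, consists of the alternating `n`-forms on the Tate module `Ω ⊗ H_1`, on which the Frobenius
endomorphism acts by `π`. We fix an isomorphism `ν` of the algebraic closure of `ℚ_p` with `ℂ`; it
defines a `p`-adic valuation of `ℂ`, with the value one at `p`.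

Let `K i` be finitely many CM fields with the following two properties.

* (`SeparatedSigns`) For any two complex embeddings `φ`, `ψ` of `K i` with `ψ ≠ φ`, `ψ ≠ conj φ` there
  is an automorphism of `ℂ` that maps each complex embedding of `K i` to itself or to its conjugate,
  that fixes `φ` and that maps `ψ` to its conjugate.
* (`Compatible`) If the Galois closures of `K i` and of `K k` are the same then the Galois closures of
  their maximal totally real subfields are the same.

The fields are not assumed to be linearly disjoint or pairwise independent, their Galois closures may
be equal or contained in each other, they may be isomorphic, and nothing is assumed about the
decomposition of `p` in `K i`. The second part of the theorem (`Criteria`) says: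

* the signs of `K` are separated if the degree of `K` is twice a **prime number** and the Galois closure
  of `K` is not the compositum of a totally real field and an imaginary quadratic field (some
  automorphism that maps each complex embedding to itself or its conjugate fixes some of them, but
  not all), or if `K` is imaginary quadratic; so for fields of degree six this holds as soon as there
  is no imaginary quadratic subfield;
* fields whose degrees are **twice odd numbers** are compatible.

(Also, the signs of `K` are separated if the Galois group of the Galois closure of `K` contains all
`2 ^ g` changes of signs, `2 g` the degree of `K`: this is so for most quadratic extensions of a given
totally real field.)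

We consider (`OfFields`) the abelian varieties `Y` that are isogenous, over an algebraic closure of the
field with `p` elements, to a product of a supersingular abelian variety of any dimension and of powers
of the simple factors of an abelian variety `Z` of the following kind. Each simple factor of `Z`, up to
those in a set `S`, is supersingular or has one of the fields `K i` as field of Frobenius (the field
generated by the sufficiently divisible powers of the Frobenius endomorphism); **all Newton polygons
and all dimensions are allowed**. Two factors with isomorphic fields are isogenous or, more
generally, the slopes of the pairwise not isogenous factors with isomorphic fields are linearly
independent (`IsSlopeFamily`); this cannot be omitted, since a linear relation between the slopes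
gives relations between the Frobenius eigenvalues and exceptional Tate classes. The set `S` is small
(`IsSmallSet`): the sum of the dimensions of the factors in `S` is at most five and no two of them have
quartic CM fields with the same Galois closure or dimensions one and four, or they have dimension at
most three and CM fields with pairwise different Galois closures; the fields `K i` are unrelated to the
CM fields `E` of the factors in `S` (`Unrelated`): the degree of `K i` is larger than that of `E`, or
the Galois closure of `K i` is not contained in that of `E`. (For the factors in `S` alone the
theorem on the Frobenius eigenvalues is in the starting files.)

For example, `Y` may be any product of powers of ordinary elliptic curves and of abelian varieties of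
odd prime dimensions (such as three, five or seven; also several of the same dimension) whose
endomorphism algebras are pairwise not isomorphic CM fields, where the Galois closures of these fields
are not composita of a totally real and an imaginary quadratic field. If there are no elliptic curves
and all these dimensions are at least seven then `Y` may have as further factors all powers of any
simple abelian variety of dimension at most five.

`Homology Ω V` are data of motivic homology `M X n j = H_n^M(X, ℚ(j)) = CH_j(X, n - 2 j) ⊗ ℚ` (higher
Chow groups) and of `ℓ`-adic homology `E X n j = H_n(X, ℚ_ℓ(j))` of schemes `X : V` of finite type over
finite fields, with the Frobenius and the regulator. Let `𝒢` (`Generated`) be the smallest class of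
schemes that contains those with the homology groups of the abelian varieties above, that is closed
under direct summands of finite sums of twists of motives, and that contains all of a closed subscheme
`Z` of `X`, `X` and `X ∖ Z` if it contains two of them.

Let `𝒟` (`NCGenerated`) be the smallest class of dg categories that contains the categories `perf_dg(X)`
for all smooth and projective `X` in `𝒢`, and all dg categories whose noncommutative motives with
rational coefficients are direct summands of finite sums of motives of members of `𝒟`. It contains, for
instance, with such an `X`, the dg categories of the perfect complexes over sheaves of Azumaya algebras
on `X`, all dg categories with semiorthogonal decompositions into members of `𝒟` (root stacks,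
blow-ups, families of quadrics, finite-dimensional algebras of finite global dimension), and all
components of such decompositions of members.

**Theorem.** For all `A` in `𝒟` and all `n ≥ 1` the groups `G_n(A)` are zero (`NCTate`).

Here `X` enters through the schemes `X n = X ⊗ 𝔽_{q^n}`, which are in `𝒢`, and through the theorem of
Thomason: the conjecture of Tate for all the `X n` (in all degrees, `Tate`) implies the noncommutative
conjecture for `perf_dg(X)` (`IsPerfTate`). The groups `G_n(A)` are the groups of the homomorphisms from
`ℤ(l^∞)` to the groups `P A n = π_{-1} (L_KU K (A ⊗ 𝔽_{q^n}))`.

The new ingredient is the theorem (`SS.core2`) that all multiplicative relations between the Frobenius
eigenvalues of `Y` come from the pairs of complex conjugate ones and from the factors in `S`. In a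
minimal Galois-stable space of relations between eigenvalues of several fields `K i` these fields have
the same Galois closure, and the same totally real Galois closure (by a fixed point theorem for
`2`-groups if the degrees are twice odd numbers), so that the separated signs isolate one pair of
eigenvalues of each field; then the embedded fields are equal, and the relation is a linear relation
between the slopes.

Properties of the theory of cycles that are used for the abelian varieties `Y` (`IsChow`,
`IsMotivic`): Poincaré duality, the formal properties of correspondences, the nilpotence of
homologically trivial correspondences (Kimura), the operation of the Frobenius endomorphism on higher
Chow groups, the vanishing of the higher rational `K`-groups of a finite field (Quillen), and the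
algebraicity of the classes in `Alg` (theorems of Tate and, if there are factors in `S`, of Markman).
-/

set_option autoImplicit false

namespace Pool.Agent.Results.MP_de89cc_ag.SeparatedSigns

open NumberField Pool.Agent.W495.TA Pool.Agent.W495.FM Pool.Agent.R900.PT Pool.Agent.T2H38.SS

/-- The noncommutative conjecture of Tate for the dg categories generated by the smooth and projective
members of the class generated by the abelian varieties whose Frobenius fields have separated
signs. -/
theorem result :
    (∀ (p : ℕ) [Fact p.Prime] (ν : PadicAlgCl p ≃+* ℂ) {I : Type} [Fintype I] (K : I → Type)
      [∀ i, Field (K i)] [∀ i, NumberField (K i)] [∀ i, IsCMField (K i)],
      (∀ i, SeparatedSigns (K i)) → (∀ i k, Compatible (K i) (K k)) →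
      ∀ (Ω : Type) [Field Ω] [IsAlgClosed Ω] [CharZero Ω] (V : Type) (T : Homology Ω V),
        IsHomology T → ∀ (l : ℕ) [Fact l.Prime] (D : Type) (P : D → ℕ → Type)
          [∀ A n, AddCommGroup (P A n)] (A : D),
            NCGenerated P (IsPerfTate T (Generated T (IsAbelianOfFields K ν T)) l P) A →
              NCTate l (P A)) ∧
    Criteria :=
  ⟨fun _ _ _ _ _ _ _ _ _ hsep hcomp _ _ _ _ _ _ hT l _ _ _ _ _ hA =>
    nc_tate (fun _ hX => tb_fields hsep hcomp hT hX) l hA, criteria⟩

end Pool.Agent.Results.MP_de89cc_ag.SeparatedSigns
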